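import Pool.Agent.Helper59.SL.GoalsC
import Pool.Agent.Helper51.SigLeo.Core

/-!
Project SL, packet ARCH: Dirichlet's unit theorem in `ℂ ⊗ 𝓞_Hˣ`.
-/

namespace Pool.Agent.Helper19.SLG.ARCH

open Pool.Agent.Helper59.SL Pool.Agent.Helper51.SigLeo Pool.Agent.Helper51.SixExp NumberField Module
  TensorProduct

universe u

theorem thm : S_ARCH.{u} := by
  intro H _ _ x hx
  have hspan := span_fundSystem H ℂ
  have hx' : x ∈ Submodule.span ℂ (Set.range fun i : Fin (Units.rank H) ↦
      ((1 : ℂ) ⊗ₜ[ℤ] Additive.ofMul (Units.fundSystem H i) : ℂ ⊗[ℤ] Additive (𝓞 H)ˣ)) := by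
    rw [hspan]; exact Submodule.mem_top
  obtain ⟨c, hc⟩ := (Submodule.mem_span_range_iff_exists_fun ℂ).mp hx'
  have h1 : ∀ φ : H →+* ℂ,
      ∑ i, c i * ((Real.log ‖φ ((Units.fundSystem H i : (𝓞 H)ˣ) : H)‖ : ℝ) : ℂ) = 0 := by
    intro φ
    have h2 := hx φ
    rw [← hc, map_sum] at h2
    simp only [map_smul, extHom_tmul, logC_apply, one_mul, smul_eq_mul, one_smul] at h2
    exact h2
  have hli : LinearIndependent ℝ
      (fun i ↦ Units.logEmbedding H (Additive.ofMul (Units.fundSystem H i))) :=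
    Units.isMaxRank_fundSystem H
  have hw : ∀ (w : InfinitePlace H) (i : Fin (Units.rank H)),
      w ((Units.fundSystem H i : (𝓞 H)ˣ) : H) = ‖w.embedding ((Units.fundSystem H i : (𝓞 H)ˣ) : H)‖ :=
    fun w i ↦ (InfinitePlace.norm_embedding_eq w _).symm
  have hre : ∀ i, (c i).re = 0 := by
    refine Fintype.linearIndependent_iff.mp hli (fun i ↦ (c i).re) ?_
    funext w
    have h3 := congrArg Complex.re (h1 w.1.embedding)
    rw [Complex.re_sum] at h3
    simp only [Complex.re_mul_ofReal, Complex.zero_re] at h3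
    rw [Finset.sum_apply]
    simp only [Pi.smul_apply, Units.dirichletUnitTheorem.logEmbedding_component, smul_eq_mul, hw, Pi.zero_apply]
    have h4 : ∑ i, (c i).re * ((InfinitePlace.mult w.1 : ℝ) *
        Real.log ‖w.1.embedding ((Units.fundSystem H i : (𝓞 H)ˣ) : H)‖) =
        (InfinitePlace.mult w.1 : ℝ) * ∑ i, (c i).re *
          Real.log ‖w.1.embedding ((Units.fundSystem H i : (𝓞 H)ˣ) : H)‖ := by
      rw [Finset.mul_sum]
      exact Finset.sum_congr rfl fun i _ ↦ by ring
    rw [h4, h3, mul_zero]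
  have him : ∀ i, (c i).im = 0 := by
    refine Fintype.linearIndependent_iff.mp hli (fun i ↦ (c i).im) ?_
    funext w
    have h3 := congrArg Complex.im (h1 w.1.embedding)
    rw [Complex.im_sum] at h3
    simp only [Complex.im_mul_ofReal, Complex.zero_im] at h3
    rw [Finset.sum_apply]
    simp only [Pi.smul_apply, Units.dirichletUnitTheorem.logEmbedding_component, smul_eq_mul, hw, Pi.zero_apply]
    have h4 : ∑ i, (c i).im * ((InfinitePlace.mult w.1 : ℝ) *
        Real.log ‖w.1.embedding ((Units.fundSystem H i : (𝓞 H)ˣ) : H)‖) =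
        (InfinitePlace.mult w.1 : ℝ) * ∑ i, (c i).im *
          Real.log ‖w.1.embedding ((Units.fundSystem H i : (𝓞 H)ˣ) : H)‖ := by
      rw [Finset.mul_sum]
      exact Finset.sum_congr rfl fun i _ ↦ by ring
    rw [h4, h3, mul_zero]
  have hc0 : ∀ i, c i = 0 := fun i ↦ Complex.ext (hre i) (him i)
  rw [← hc]
  exact Finset.sum_eq_zero fun i _ ↦ by rw [hc0 i, zero_smul]

end Pool.Agent.Helper19.SLG.ARCH
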